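import Pool.Agent.H71.FX.Targets2

/-!
# fxm_modules, row AC: a new cycle
-/

set_option autoImplicit false

namespace Pool.Agent.H45.FX

open Pool.Agent.H71.FX Pool.Agent.H71.PF

theorem ff_inl {α : Type} (m : Sk α) (ℓ : ℕ) (k : ℕ) (y : α) :
    (ff m ℓ)^[k] (Sum.inl y) = Sum.inl (m.f^[k] y) := by
  induction k with
  | zero => rfl
  | succ k ih =>
    rw [Function.iterate_succ_apply', ih, Function.iterate_succ_apply']
    rfl

theorem hh_inl {α : Type} (e : ℕ → α) (ℓ ρ s : ℕ) (y y' : α)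
    (h : hh e ℓ ρ s y' = Sum.inl y) : y = y' := by
  unfold hh at h
  split_ifs at h
  exact (Sum.inl.inj h).symm

theorem map_inl_eq {α β : Type} (H : α → α ⊕ β) (hH : ∀ y y', H y' = Sum.inl y → y = y')
    (l l2 : List α) (h : l.map Sum.inl = l2.map H) : l = l2 := by
  induction l generalizing l2 with
  | nil =>
    rw [List.map_nil] at h
    exact (List.map_eq_nil_iff.1 h.symm).symm
  | cons a l ih =>
    cases l2 with
    | nil => simp at h
    | cons b l2 =>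
      rw [List.map_cons, List.map_cons, List.cons.injEq] at h
      rw [hH a b h.1.symm, ih l2 h.2]

theorem pf_AC (rd : T_RD) (hc : T_HC) (cc : T_CC) : T_AC := by
  intro P α hfin m e M p q haK hWf hC hpq hqM hAl
  obtain ⟨ℓ, hℓ⟩ : ∃ ℓ, ℓ = q - p := ⟨_, rfl⟩
  have hB2 : 2 ≤ P.B := by
    have h1 : 1 * (P.D + 2) ≤ P.K * (P.D + 2) := Nat.mul_le_mul_right _ (by omega)
    have hB : P.B = P.D + P.K * (P.D + 2) := rfl
    omega
  have hℓ0 : NeZero ℓ := ⟨by omega⟩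
  obtain ⟨s, hs⟩ : ∃ s : ZMod ℓ → ℕ,
      s = fun z => (p + 3 * P.B) + (z - ((p + 3 * P.B : ℕ) : ZMod ℓ)).val := ⟨_, rfl⟩
  have hs1 : ∀ z, p + 3 * P.B ≤ s z := by
    intro z
    rw [hs]
    exact Nat.le_add_right _ _
  have hs2 : ∀ z, s z < q + 3 * P.B := by
    intro z
    have h1 := ZMod.val_lt (z - ((p + 3 * P.B : ℕ) : ZMod ℓ))
    rw [hs]
    simp only
    omega
  have hs3 : ∀ z, ((s z : ℕ) : ZMod ℓ) = z := by
    intro z
    rw [hs]
    simp only
    rw [Nat.cast_add, ZMod.natCast_zmod_val]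
    ring
  have hs4 : ∀ z, P.B + 1 ≤ s z := fun z => by have := hs1 z; omega
  have hs5 : ∀ z, s z + P.B + 1 ≤ M := fun z => by have := hs2 z; omega
  choose ρ hρ using fun z => rd P α m e M (s z) haK hWf hC (hs4 z) (hs5 z)
  have hH := fun z => hc P α m e M ℓ (s z) (ρ z) haK hWf hC (hs4 z) (hs5 z) (by omega) (hρ z)
  have hNam : ∀ x, ∀ i < P.a, m.Nam P (m.w x i) := fun x i hi => ⟨x, i, hi, 0, Nat.zero_le _, rfl⟩
  obtain ⟨m', hm'⟩ : ∃ m' : Sk (α ⊕ ZMod ℓ), m' =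
    { f := ff m ℓ
      R := fun j l' => (∃ l : List α, l' = l.map Sum.inl ∧ m.R j l) ∨
        ∃ (z : ZMod ℓ) (l : List α), (∀ y ∈ l, y ∈ m.T P (e (s z))) ∧
          l' = l.map (hh e ℓ (ρ z) (s z)) ∧ m.R j l
      w := fun x' i => Sum.elim (fun x => Sum.inl (m.w x i))
        (fun z => hh e ℓ (ρ z) (s z) (m.w (e (s z)) i)) x' } := ⟨_, rfl⟩
  have hf : m'.f = ff m ℓ := by rw [hm']
  have hwl : ∀ x i, m'.w (Sum.inl x) i = Sum.inl (m.w x i) := by
    intro x i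
    rw [hm']
    rfl
  have hwr : ∀ z i, m'.w (Sum.inr z) i = hh e ℓ (ρ z) (s z) (m.w (e (s z)) i) := by
    intro z i
    rw [hm']
    rfl
  have hR : ∀ j l', m'.R j l' ↔ (∃ l : List α, l' = l.map Sum.inl ∧ m.R j l) ∨
        ∃ (z : ZMod ℓ) (l : List α), (∀ y ∈ l, y ∈ m.T P (e (s z))) ∧
          l' = l.map (hh e ℓ (ρ z) (s z)) ∧ m.R j l := by
    intro j l'
    rw [hm']
  have hwa : ∀ x' : α ⊕ ZMod ℓ, ∀ i < P.a, m'.w x' i = Sum.inl (m.w (e 0) i) := by
    intro x' i hi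
    rcases x' with x | z
    · rw [hwl, hWf.1 x (e 0) i hi]
    · rw [hwr, (hH z).2.2.2 _ (hNam _ i hi), hWf.1 (e (s z)) (e 0) i hi]
  refine ⟨α ⊕ ZMod ℓ, inferInstance, m', ?_, ⟨⟨?_, ?_⟩, ?_⟩, Set.range Sum.inr, ⟨?_, ?_, ?_⟩, ?_⟩
  · rw [Nat.card_sum, Nat.card_zmod, hℓ]
  · intro x y i hi
    rw [hwa x i hi, hwa y i hi]
  · intro x'
    rcases x' with x | z
    · rw [hwl, hWf.2]
    · rw [hwr, hWf.2, (hH z).2.1 (s z) (Nat.le_add_right _ _) (Nat.le_add_right _ _), hs3]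
  · intro x'
    rcases x' with x | z
    · refine ⟨x, Sum.inl, ?_, Sum.inl_injective.injOn, ?_⟩
      · intro i _ k _
        rw [hf, hwl, ff_inl]
      · intro j l _ _ _ _
        rw [hR]
        constructor
        · rintro (⟨l2, h1, h2⟩ | ⟨z, l2, -, h1, h2⟩)
          · rwa [Sum.inl_injective.list_map h1]
          · rwa [map_inl_eq _ (hh_inl e ℓ (ρ z) (s z)) l l2 h1]
        · exact fun h => Or.inl ⟨l, rfl, h⟩
    · refine ⟨e (s z), hh e ℓ (ρ z) (s z), ?_, (hH z).1.injOn, ?_⟩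
      · intro i hi k hk
        induction k with
        | zero => exact hwr z i
        | succ k ih =>
          rw [Function.iterate_succ_apply', ih (by omega), Function.iterate_succ_apply',
            (hH z).2.2.1 i hi k (by omega), hf]
      · intro j l hj hl1 hlr hlT
        rw [hR]
        constructor
        · rintro (⟨l2, h1, h2⟩ | ⟨z', l2, hT, h1, h2⟩)
          · rwa [← map_inl_eq _ (hh_inl e ℓ (ρ z) (s z)) l2 l h1.symm]
          · rw [hℓ] at h1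
            exact (cc P α m e M p q (s z) (s z') (ρ z) (ρ z') j l l2 haK hWf hC hpq hqM hAl
              (hs1 z) (hs2 z) (hs1 z') (hs2 z') (hρ z) (hρ z') hj hl1 hlr hlT hT h1).2 h2
        · exact fun h => Or.inr ⟨z, l, hlT, rfl, h⟩
  · exact ⟨Sum.inr 0, 0, rfl⟩
  · rintro (x | z) ⟨z', hz'⟩
    · rw [hf] at hz'
      exact absurd hz' (by simp [ff])
    · exact ⟨z, rfl⟩
  · rintro _ ⟨z, rfl⟩ ⟨x', i, hi, k, -, h⟩
    rw [hwa x' i hi, hf, ff_inl] at h
    exact absurd h (by simp)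
  · rw [← Set.image_univ, Set.ncard_image_of_injective _ Sum.inr_injective, Set.ncard_univ,
      Nat.card_zmod, hℓ]

end Pool.Agent.H45.FX
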