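import Pool.Agent.H71.FX.Targets

/-!
# fxm_modules, rows TB, RA, CR, MR
-/

set_option autoImplicit false

namespace Pool.Agent.H45.FX

open Pool.Agent.H71.FX Pool.Agent.H71.PF Pool.Agent.H8.PL

theorem pf_TB : T_TB := by
  intro y j
  induction j generalizing y with
  | zero =>
    rw [Nat.testBit_zero, Nat.testBit_zero, decide_eq_true_iff, decide_eq_true_iff]
    constructor
    · intro h h'
      have h1 := h'.2 (fun i hi => absurd hi (Nat.not_lt_zero i))
      omega
    · intro h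
      by_contra h1
      refine h ⟨fun _ i hi => absurd hi (Nat.not_lt_zero i), fun _ => by omega⟩
  | succ j ih =>
    rw [Nat.testBit_succ, Nat.testBit_succ]
    rcases Nat.mod_two_eq_zero_or_one y with hy | hy
    · have e1 : (y + 1) / 2 = y / 2 := by omega
      rw [e1]
      constructor
      · intro h h'
        have h1 := h'.1 h 0 (Nat.succ_pos j)
        rw [Nat.testBit_zero, decide_eq_true_iff] at h1
        omega
      · intro h
        by_contra h1
        refine h ⟨fun h2 => absurd h2 h1, fun h2 => ?_⟩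
        have h3 := h2 0 (Nat.succ_pos j)
        rw [Nat.testBit_zero, decide_eq_true_iff] at h3
        omega
    · have e1 : (y + 1) / 2 = y / 2 + 1 := by omega
      have e2 : (∀ i < j + 1, y.testBit i = true) ↔ ∀ i < j, (y / 2).testBit i = true := by
        constructor
        · intro h i hi
          have := h (i + 1) (by omega)
          rwa [Nat.testBit_succ] at this
        · intro h i hi
          rcases Nat.eq_zero_or_pos i with h0 | h0
          · rw [h0, Nat.testBit_zero, decide_eq_true_iff]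
            exact hy
          · obtain ⟨i', rfl⟩ : ∃ i', i = i' + 1 := ⟨i - 1, by omega⟩
            rw [Nat.testBit_succ]
            exact h i' (by omega)
      rw [e1, ih (y / 2), e2]

theorem exists_least (P : ℕ → Prop) (h : ∃ i, P i) : ∃ i, P i ∧ ∀ j < i, ¬ P j := by
  classical
  exact ⟨Nat.find h, Nat.find_spec h, fun j hj => Nat.find_min h hj⟩

theorem pf_RA (il : T_IL) (co : T_CO) (ue : T_UE) (de : T_DE) (tr : T_TR) : T_RA := by
  intro α Q m hfin hru hup x
  obtain ⟨i, hi, hi'⟩ := exists_least _ (de α Q m hfin hru hup x)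
  obtain ⟨h1, h2, -, -, -⟩ := il α Q m.tr (tr α Q m hru) x i hi'
  obtain ⟨j, hj, hj'⟩ := exists_least _ (ue α Q m.tr hfin (tr α Q m hru) (m.d^[i] x) hi)
  obtain ⟨-, -, -, h3, -, -, -⟩ := co α Q m hru (m.d^[i] x) j i hj' h2
  have e1 : m.u^[i] (m.d^[i] x) = x := h1
  rw [e1] at h3
  exact ⟨j, h3.2 hj⟩

theorem pf_CR (il : T_IL) (it : T_IT) (ua : T_UA) (de : T_DE) (ra : T_RA) (tr : T_TR) : T_CR := by
  clear it
  intro α Q m hfin hru hG4 x
  have hup := ua α Q m hfin hru hG4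
  have hri := ra α Q m hfin hru hup
  obtain ⟨j, hj, hj'⟩ := exists_least _ (de α Q m.tr hfin (tr α Q m hru) hri x)
  obtain ⟨h1, h2, -, -, -⟩ := il α Q m hru x j hj'
  obtain ⟨i, hi, hi'⟩ := exists_least _ (de α Q m hfin hru hup (m.l^[j] x))
  obtain ⟨h3, h4, h5, -, -⟩ := il α Q m.tr (tr α Q m hru) (m.l^[j] x) i hi'
  have e1 : m.u^[i] (m.d^[i] (m.l^[j] x)) = m.l^[j] x := h3
  refine ⟨m.d^[i] (m.l^[j] x), i, j, ⟨h5.2 hj, hi⟩, h4, ?_, ?_⟩
  · rw [e1]
    exact h2
  · rw [e1]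
    exact h1.symm

theorem MR_r {Q : Type} {W H : ℕ} (t : ℕ → ℕ → Q) (a b : ℕ) (ha : a < W) (hb : b < H)
    (h : a + 1 < W) : (MR W H t).r (⟨a, ha⟩, ⟨b, hb⟩) = (⟨a + 1, h⟩, ⟨b, hb⟩) := dif_pos h

theorem MR_u {Q : Type} {W H : ℕ} (t : ℕ → ℕ → Q) (a b : ℕ) (ha : a < W) (hb : b < H)
    (h : b + 1 < H) : (MR W H t).u (⟨a, ha⟩, ⟨b, hb⟩) = (⟨a, ha⟩, ⟨b + 1, h⟩) := dif_pos h

theorem bdec (b : Bool) (p : Prop) [Decidable p] (h : b = true ↔ p) : b = decide p := by
  rw [Bool.eq_iff_iff, decide_eq_true_iff]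
  exact h

theorem all_succ (P : ℕ → Prop) (a : ℕ) : (∀ j < a + 1, P j) ↔ (∀ j < a, P j) ∧ P a := by
  constructor
  · exact fun h => ⟨fun j hj => h j (by omega), h a (by omega)⟩
  · rintro ⟨h1, h2⟩ j hj
    rcases Nat.lt_succ_iff_lt_or_eq.1 hj with h | h
    · exact h1 j h
    · rw [h]
      exact h2

theorem pf_MR (tb : T_TB) (ov : T_OV) : T_MR := by
  intro Q U Hh Vv W H t hW hH hHW hWH hg
  obtain ⟨g1, g2, g3⟩ := hg
  refine ⟨fun x => ?_, fun z z' hz hz' => ?_⟩
  · obtain ⟨⟨a, ha⟩, ⟨b, hb⟩⟩ := x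
    refine ⟨⟨?_, ?_, ?_, ?_, ?_⟩, ⟨?_, ?_, ?_⟩, ⟨?_, ?_, ?_⟩, ⟨?_, ?_, ?_⟩, ⟨?_, ?_, ?_, ?_⟩⟩
    · intro hx
      have h : a + 1 < W := lt_of_le_of_ne ha hx
      rw [MR_r t a b ha hb h]
      refine ⟨?_, ?_, Iff.rfl, Iff.rfl⟩
      · exact Prod.ext (Fin.ext (Nat.add_sub_cancel a 1)) rfl
      · exact Nat.succ_ne_zero a
    · intro hx
      have h0 : a ≠ 0 := hx
      have e1 : (MR W H t).l (⟨a, ha⟩, ⟨b, hb⟩) = (⟨a - 1, by omega⟩, ⟨b, hb⟩) := rfl
      rw [e1, MR_r t (a - 1) b (by omega) hb (by omega)]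
      refine ⟨Prod.ext (Fin.ext ?_) rfl, ?_⟩
      · show a - 1 + 1 = a
        omega
      · show ¬ (a - 1 + 1 = W)
        omega
    · intro hx
      have h : b + 1 < H := lt_of_le_of_ne hb hx
      rw [MR_u t a b ha hb h]
      refine ⟨?_, ?_, Iff.rfl, Iff.rfl⟩
      · exact Prod.ext rfl (Fin.ext (Nat.add_sub_cancel b 1))
      · exact Nat.succ_ne_zero b
    · intro hx
      have h0 : b ≠ 0 := hx
      have e1 : (MR W H t).d (⟨a, ha⟩, ⟨b, hb⟩) = (⟨a, ha⟩, ⟨b - 1, by omega⟩) := rfl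
      rw [e1, MR_u t a (b - 1) ha (by omega) (by omega)]
      refine ⟨Prod.ext rfl (Fin.ext ?_), ?_⟩
      · show b - 1 + 1 = b
        omega
      · show ¬ (b - 1 + 1 = H)
        omega
    · intro hx hy
      have h : a + 1 < W := lt_of_le_of_ne ha hx
      have h' : b + 1 < H := lt_of_le_of_ne hb hy
      rw [MR_u t a b ha hb h', MR_r t a b ha hb h, MR_r t a (b + 1) ha h' h,
        MR_u t (a + 1) b h hb h']
    · intro hx j hj
      have h0 : a = 0 := hx
      have hj' : j < a := hj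
      omega
    · intro hx
      have h : a + 1 < W := lt_of_le_of_ne ha hx
      rw [MR_r t a b ha hb h]
      exact all_succ (fun j => b.testBit j = true) a
    · intro hx
      have h : b + 1 < H := lt_of_le_of_ne hb hx
      rw [MR_u t a b ha hb h]
      refine ⟨tb b a, fun hr => ?_⟩
      have hr' : a + 1 = W := hr
      exact ov b a (by rw [hr']; omega)
    · intro hx j hj
      have h0 : b = 0 := hx
      have hj' : j < b := hj
      omega
    · intro hx
      have h : b + 1 < H := lt_of_le_of_ne hb hx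
      rw [MR_u t a b ha hb h]
      exact all_succ (fun j => a.testBit j = true) b
    · intro hx
      have h : a + 1 < W := lt_of_le_of_ne ha hx
      rw [MR_r t a b ha hb h]
      refine ⟨tb a b, fun hr => ?_⟩
      have hr' : b + 1 = H := hr
      exact ov a b (by rw [hr']; omega)
    · exact rfl
    · exact Iff.rfl
    · intro hx
      have h : b + 1 < H := lt_of_le_of_ne hb hx
      have e1 : (MR W H t).L (⟨a, ha⟩, ⟨b, hb⟩) = (⟨0, hW⟩, ⟨b, hb⟩) := rfl
      rw [MR_u t a b ha hb h, e1, MR_u t 0 b hW hb h]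
      rfl
    · exact ⟨t a b, rfl⟩
    · intro q hq b1 b2 b3 b4 h1 h2 h3 h4
      have hq' : t a b = q := hq
      rw [bdec b1 (a = 0) h1, bdec b2 (a + 1 = W) h2, bdec b3 (b = 0) h3, bdec b4 (b + 1 = H) h4,
        ← hq']
      exact g1 a ha b hb
    · intro hx q q' hq hq'
      have h : a + 1 < W := lt_of_le_of_ne ha hx
      rw [MR_r t a b ha hb h] at hq'
      have e1 : t a b = q := hq
      have e2 : t (a + 1) b = q' := hq'
      rw [← e1, ← e2]
      exact g2 a b h hb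
    · intro hx q q' hq hq'
      have h : b + 1 < H := lt_of_le_of_ne hb hx
      rw [MR_u t a b ha hb h] at hq'
      have e1 : t a b = q := hq
      have e2 : t a (b + 1) = q' := hq'
      rw [← e1, ← e2]
      exact g3 a b ha h
  · obtain ⟨⟨a, ha⟩, ⟨b, hb⟩⟩ := z
    obtain ⟨⟨a', ha'⟩, ⟨b', hb'⟩⟩ := z'
    have h1 : a = 0 := hz.1
    have h2 : b = 0 := hz.2
    have h3 : a' = 0 := hz'.1
    have h4 : b' = 0 := hz'.2
    subst h1 h2 h3 h4
    rfl

end Pool.Agent.H45.FX
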