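import Pool.Agent.H71.FX.Targets2

/-!
# fxm_modules, row RD: a radius
-/

set_option autoImplicit false

namespace Pool.Agent.H45.FX

open Pool.Agent.H71.FX Pool.Agent.H71.PF

theorem chain_iter {α : Type} {P : Pr} {m : Sk α} {e : ℕ → α} {M : ℕ} (hC : Chain P m e M) (u j : ℕ)
    (h : u + j ≤ M) : m.f^[j] (e u) = e (u + j) := by
  induction j with
  | zero => rfl
  | succ j ih =>
    rw [Function.iterate_succ_apply', ih (by omega), hC.1 (u + j) (by omega)]
    rfl

theorem iter_sub {α : Type} (f : α → α) (y : α) (k k' : ℕ) (h : k ≤ k') :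
    f^[k'] y = f^[k' - k] (f^[k] y) := by
  rw [← Function.iterate_add_apply, Nat.sub_add_cancel h]

/-- two positions on the same path -/
theorem path_pos {α : Type} {P : Pr} {m : Sk α} {e : ℕ → α} {M : ℕ} (hC : Chain P m e M) (y : α)
    (k k' u u' : ℕ) (hk' : k' < P.D) (hkk : k ≤ k') (hu : u + P.D ≤ M) (hu' : u' ≤ M)
    (h : m.f^[k] y = e u) (h' : m.f^[k'] y = e u') : u' = u + (k' - k) := by
  have h1 : m.f^[k'] y = e (u + (k' - k)) := by
    rw [iter_sub m.f y k k' hkk, h, chain_iter hC u (k' - k) (by omega)]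
  exact hC.2.1 u' hu' (u + (k' - k)) (by omega) (h'.symm.trans h1)

theorem pf_RD : T_RD := by
  intro P α m e M s haK hWf hC hs hsM
  by_contra hcon
  push Not at hcon
  have hB : P.B = P.D + P.K * (P.D + 2) := rfl
  have hrho : ∀ c < P.K, P.D + c * (P.D + 2) + P.D + 2 ≤ P.B := by
    intro c hc
    have h1 : (c + 1) * (P.D + 2) ≤ P.K * (P.D + 2) := Nat.mul_le_mul_right _ hc
    have h2 : (c + 1) * (P.D + 2) = c * (P.D + 2) + (P.D + 2) := Nat.succ_mul _ _
    omega
  have hbad : ∀ c < P.K, ∃ i, i < P.K ∧ ∃ k, k < P.D ∧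
      (m.f^[k] (m.w (e s) i) = e (s + (P.D + c * (P.D + 2))) ∨
        m.f^[k] (m.w (e s) i) = e (s - (P.D + c * (P.D + 2)) - 1)) := by
    intro c hc
    by_contra h
    push Not at h
    refine hcon (P.D + c * (P.D + 2)) ⟨Nat.le_add_right _ _, ?_, fun i hi k hk => h i hi k hk⟩
    have := hrho c hc
    omega
  choose! g hg1 hg2 using hbad
  have hga : ∀ c < P.K, g c ≠ P.a := by
    intro c hc h
    obtain ⟨k, hk, hor⟩ := hg2 c hc
    have h1 := hrho c hc
    rw [h, hWf.2, chain_iter hC s k (by omega)] at hor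
    rcases hor with h2 | h2
    · have := hC.2.1 _ (by omega) _ (by omega) h2
      omega
    · have := hC.2.1 _ (by omega) _ (by omega) h2
      omega
  obtain ⟨c, hc, c', hc', hne, heq⟩ := Finset.exists_ne_map_eq_of_card_lt_of_maps_to
    (s := Finset.range P.K) (t := (Finset.range P.K).erase P.a) (f := g) (by
      rw [Finset.card_erase_of_mem (Finset.mem_range.2 haK), Finset.card_range]
      omega) (by
      intro c hc
      have hc' := Finset.mem_range.1 (Finset.mem_coe.1 hc)
      exact Finset.mem_coe.2 (Finset.mem_erase.2 ⟨hga c hc', Finset.mem_range.2 (hg1 c hc')⟩))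
  rw [Finset.mem_range] at hc hc'
  -- the distances
  have key : ∀ c c', c < P.K → c' < P.K → c ≠ c' → ∀ k k', k' < P.D → k ≤ k' → ∀ y : α,
      (m.f^[k] y = e (s + (P.D + c * (P.D + 2))) ∨
        m.f^[k] y = e (s - (P.D + c * (P.D + 2)) - 1)) →
      (m.f^[k'] y = e (s + (P.D + c' * (P.D + 2))) ∨
        m.f^[k'] y = e (s - (P.D + c' * (P.D + 2)) - 1)) → False := by
    intro c c' hc hc' hne k k' hk' hkk y h h'
    have h1 := hrho c hc
    have h2 := hrho c' hc'
    have h3 : c * (P.D + 2) + (P.D + 2) ≤ c' * (P.D + 2) ∨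
        c' * (P.D + 2) + (P.D + 2) ≤ c * (P.D + 2) := by
      rcases lt_or_gt_of_ne hne with h4 | h4
      · left
        have := Nat.mul_le_mul_right (P.D + 2) h4
        rwa [Nat.succ_mul] at this
      · right
        have := Nat.mul_le_mul_right (P.D + 2) h4
        rwa [Nat.succ_mul] at this
    rcases h with h | h <;> rcases h' with h' | h'
    · have := path_pos hC y k k' _ _ hk' hkk (by omega) (by omega) h h'
      omega
    · have := path_pos hC y k k' _ _ hk' hkk (by omega) (by omega) h h'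
      omega
    · have := path_pos hC y k k' _ _ hk' hkk (by omega) (by omega) h h'
      omega
    · have := path_pos hC y k k' _ _ hk' hkk (by omega) (by omega) h h'
      omega
  obtain ⟨k, hk, hor⟩ := hg2 c hc
  obtain ⟨k', hk', hor'⟩ := hg2 c' hc'
  rw [← heq] at hor'
  rcases le_total k k' with h | h
  · exact key c c' hc hc' hne k k' hk' h _ hor hor'
  · exact key c' c hc' hc hne.symm k' k hk h _ hor' hor

end Pool.Agent.H45.FX
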